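import Pool.Agent.MP_5daf37_lc.Matrix

/-!
An explicit family of matrices for which every linear circuit has at least `7 n - o(n)` edges and
size (nodes plus edges) at least `9 n - o(n)`, over every field of characteristic zero.
-/

open Pool.Agent.MP_5daf37_lc

namespace Pool.Agent.Results.MP_5daf37_lc.NineN

theorem result : ∃ A : (n : ℕ) → Matrix (Fin n) (Fin n) ℚ, Explicit A ∧
    ∀ (F : Type) [Field F] [CharZero F] (c ε : ℝ), 0 ≤ c → 0 < ε →
      ∃ n0 : ℕ, ∀ n ≥ n0, ∀ (p q : ℕ) (C : Circuit F n p q),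
        C.Computes ((A n).map (Rat.cast : ℚ → F)) → (7 + 2 * c - ε) * n ≤ c * p + q := by
  refine ⟨mat, explicit_mat, fun F _ _ c ε hc hε => ?_⟩
  obtain ⟨n0, hn0⟩ := mat_bound F (show 0 < ε / (1 + c) by positivity)
  refine ⟨n0, fun n hn p q C hC => ?_⟩
  obtain ⟨h1, h2⟩ := hn0 n hn p q C hC
  have h3 : c * ((2 - ε / (1 + c)) * n) ≤ c * p := mul_le_mul_of_nonneg_left h2 hc
  have h4 : (7 + 2 * c - ε) * n = (7 - ε / (1 + c)) * n + c * ((2 - ε / (1 + c)) * n) := by
    field_simp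
    ring
  linarith

end Pool.Agent.Results.MP_5daf37_lc.NineN
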