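import Pool.Agent.MP_5daf37_lc.VandB

/-!
A super-linear lower bound, without any restriction on the depth, for linear circuits that
evaluate a polynomial at the integer points `2 ^ Q ^ i`.
-/

open Pool.Agent.MP_5daf37_lc

namespace Pool.Agent.Results.MP_5daf37_lc.VandermondeAnyDepth

theorem result (ε : ℝ) (hε : 0 < ε) : ∃ q₀ : ℕ, ∀ q ≥ q₀, ∀ n Q : ℕ, (2 : ℝ) ^ q ≤ ε * n →
    2 ^ q ≤ Q → ∀ (F : Type) [Field F] [CharZero F] (p s : ℕ) (C : Circuit F n p s),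
      C.Computes (Matrix.vandermonde fun i : Fin n => (2 : F) ^ Q ^ (i : ℕ)) →
      (1 - 2 * ε) * n * q / Real.logb 2 q ≤ s := by
  obtain ⟨m, hm⟩ := exists_nat_ge (20 / ε)
  rw [div_le_iff₀ hε] at hm
  refine ⟨2 ^ (m + 1), fun q hq n Q hn hQ F _ _ p s C hC => ?_⟩
  have hq1 : m + 1 < q := Nat.lt_two_pow_self.trans_le hq
  have hq2 : (m : ℝ) + 1 < q := by exact_mod_cast hq1
  have hm0 : (0 : ℝ) ≤ m := Nat.cast_nonneg m
  have hn0 : (0 : ℝ) ≤ n := Nat.cast_nonneg n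
  have hs0 : (0 : ℝ) ≤ s := Nat.cast_nonneg s
  have hl : (m : ℝ) + 1 ≤ Real.logb 2 q := by
    rw [Real.le_logb_iff_rpow_le one_lt_two (by linarith)]
    exact_mod_cast hq
  rw [div_le_iff₀ (by linarith)]
  rcases le_or_gt 1 (2 * ε) with h1 | h1
  · have : (1 - 2 * ε) * n * q ≤ 0 :=
      mul_nonpos_of_nonpos_of_nonneg (mul_nonpos_of_nonpos_of_nonneg (by linarith) hn0)
        (by linarith)
    exact this.trans (mul_nonneg hs0 (by linarith))
  have h2 : 2 ^ q ≤ n := by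
    have : (2 : ℝ) ^ q ≤ n := hn.trans (mul_le_of_le_one_left hn0 (by linarith))
    exact_mod_cast this
  obtain ⟨k, hk⟩ := Nat.exists_eq_add_of_le' h2
  have h3 := Vand.main hk.ge hQ C hC
  have h4 : 20 * n ^ 5 ≤ 2 ^ (10 * n) := by
    have h5 : n ^ 5 ≤ (2 ^ n) ^ 5 := Nat.pow_le_pow_left Nat.lt_two_pow_self.le 5
    have h6 : 2 ^ 5 ≤ (2 ^ n) ^ 5 := Nat.pow_le_pow_left
      (Nat.le_self_pow (by have := Nat.one_le_two_pow (n := q); omega) 2) 5
    calc 20 * n ^ 5 ≤ (2 ^ n) ^ 5 * (2 ^ n) ^ 5 := Nat.mul_le_mul (by omega) h5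
      _ = 2 ^ (10 * n) := by ring
  have h5 : (2 : ℝ) ^ (k * q) ≤ 2 ^ (10 * n) * (2 ^ 2 * q) ^ s := by
    exact_mod_cast h3.trans (Nat.mul_le_mul h4 (Nat.pow_le_pow_left (by omega) s))
  have h6 := Real.logb_le_logb_of_le one_lt_two (by positivity) h5
  have hq0 : (0 : ℝ) < q := by linarith
  rw [Real.logb_mul (by positivity) (by positivity), Real.logb_pow, Real.logb_pow, Real.logb_pow,
    Real.logb_mul (by positivity) hq0.ne', Real.logb_pow, Real.logb_self_eq_one one_lt_two] at h6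
  push_cast at h6
  have h7 : (n : ℝ) = k + 2 ^ q := by exact_mod_cast hk
  have h8 : (1 - ε) * n * q ≤ k * q := mul_le_mul_of_nonneg_right (by linarith) hq0.le
  have h9 : 10 * (n : ℝ) ≤ ε / 2 * n * q := by
    have : 20 ≤ ε * q := by nlinarith
    nlinarith
  have h10 : (s : ℝ) * 2 ≤ ε / 2 * (s * Real.logb 2 q) := by
    have : 4 ≤ ε * Real.logb 2 q := by nlinarith
    nlinarith
  have h11 : (1 - 2 * ε) * n * q * (1 + ε / 2) ≤ s * Real.logb 2 q * (1 + ε / 2) := by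
    have : 0 ≤ ε ^ 2 * (n * q) := by positivity
    nlinarith
  exact le_of_mul_le_mul_right h11 (by linarith)

end Pool.Agent.Results.MP_5daf37_lc.VandermondeAnyDepth
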